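import Mathlib

set_option autoImplicit false

/-
Abstract part: the ideals of sets carrying a regressive function with small fibres on a
well-order, and an Ulam-matrix argument giving many pairwise disjoint non-small sets.
-/

namespace Pool.Agent.Lib.MP_40e9ab_lc

open Cardinal Set

universe u

section Defs

variable {X : Type u} [LinearOrder X]

/-- `A` is `μ`-small if there is a regressive function on `A` all of whose fibres have size at
most `μ`. -/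
def Small (μ : Cardinal.{u}) (A : Set X) : Prop :=
  ∃ f : X → X, (∀ x ∈ A, f x < x) ∧ ∀ y, #{x | x ∈ A ∧ f x = y} ≤ μ

theorem Small.mono {μ : Cardinal.{u}} {A B : Set X} (h : A ⊆ B) (hB : Small μ B) : Small μ A := by
  obtain ⟨f, h1, h2⟩ := hB
  refine ⟨f, fun x hx => h1 x (h hx), fun y => ?_⟩
  have hs : {x | x ∈ A ∧ f x = y} ⊆ {x | x ∈ B ∧ f x = y} := fun x hx => ⟨h hx.1, hx.2⟩
  exact (mk_le_mk_of_subset hs).trans (h2 y)

theorem Small.mono_card {μ ν : Cardinal.{u}} {A : Set X} (h : μ ≤ ν) (hA : Small μ A) :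
    Small ν A := by
  obtain ⟨f, h1, h2⟩ := hA
  exact ⟨f, h1, fun y => (h2 y).trans h⟩

theorem mk_iUnion_le_of_le {ι : Type u} {μ : Cardinal.{u}} (hμ : ℵ₀ ≤ μ) (hι : #ι ≤ μ)
    {α : Type u} (A : ι → Set α) (h : ∀ i, #(A i) ≤ μ) : #(⋃ i, A i) ≤ μ := by
  calc #(⋃ i, A i) ≤ #ι * ⨆ i, #(A i) := mk_iUnion_le A
    _ ≤ μ * μ := mul_le_mul' hι (ciSup_le' h)
    _ = μ := mul_eq_self hμ

theorem Small.iUnion {ι : Type u} {μ : Cardinal.{u}} (hμ : ℵ₀ ≤ μ) (hι : #ι ≤ μ)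
    (A : ι → Set X) (h : ∀ i, Small μ (A i)) : Small μ (⋃ i, A i) := by
  classical
  choose f hf1 hf2 using h
  have hex : ∀ x ∈ ⋃ i, A i, ∃ i, x ∈ A i := fun x hx => by simpa using hx
  refine ⟨fun x => if hx : x ∈ ⋃ i, A i then f (hex x hx).choose x else x, ?_, ?_⟩
  · intro x hx
    simp only [hx, dif_pos]
    exact hf1 _ x (hex x hx).choose_spec
  · intro y
    have hsub : {x | x ∈ (⋃ i, A i) ∧ (if hx : x ∈ ⋃ i, A i then f (hex x hx).choose x else x) = y}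
        ⊆ ⋃ i, {x | x ∈ A i ∧ f i x = y} := by
      rintro x ⟨hx, hy⟩
      simp only [hx, dif_pos] at hy
      rw [mem_iUnion]
      exact ⟨(hex x hx).choose, (hex x hx).choose_spec, hy⟩
    exact (mk_le_mk_of_subset hsub).trans (mk_iUnion_le_of_le hμ hι _ (fun i => hf2 i y))

end Defs

section Main

variable {X : Type u} [LinearOrder X] [WellFoundedLT X]

/-- Counting lemma: a regressive function off a small set with small fibres bounds the size. -/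
theorem card_le_of_regressive {μ : Cardinal.{u}} (hμ : ℵ₀ ≤ μ) (W D : Set X) (f : X → X)
    (hf : ∀ x ∈ W, x ∉ D → f x < x ∧ f x ∈ W) (hD : #D ≤ μ)
    (hfib : ∀ y, #{x | (x ∈ W ∧ x ∉ D) ∧ f x = y} ≤ μ) : #W ≤ μ := by
  obtain ⟨L, hL0, hLs⟩ : ∃ L : ℕ → Set X, L 0 = D ∧
      ∀ n, L (n + 1) = {x | (x ∈ W ∧ x ∉ D) ∧ f x ∈ L n} :=
    ⟨fun n => Nat.rec D (fun _ S => {x | (x ∈ W ∧ x ∉ D) ∧ f x ∈ S}) n, rfl, fun n => rfl⟩
  have hLc : ∀ n, #(L n) ≤ μ := by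
    intro n
    induction n with
    | zero => rw [hL0]; exact hD
    | succ n ih =>
      have hsub : L (n + 1) ⊆ ⋃ y : L n, {x | (x ∈ W ∧ x ∉ D) ∧ f x = (y : X)} := by
        intro x hx
        rw [hLs] at hx
        exact mem_iUnion.2 ⟨⟨f x, hx.2⟩, hx.1, rfl⟩
      exact (mk_le_mk_of_subset hsub).trans (mk_iUnion_le_of_le hμ ih _ (fun i => hfib _))
  have hcov : W ⊆ ⋃ n : ULift.{u} ℕ, L n.down := by
    intro x
    induction x using WellFoundedLT.induction with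
    | ind x ih =>
      intro hx
      by_cases hxD : x ∈ D
      · refine mem_iUnion.2 ⟨⟨0⟩, ?_⟩
        show x ∈ L 0
        rw [hL0]
        exact hxD
      · obtain ⟨h1, h2⟩ := hf x hx hxD
        obtain ⟨n, hn⟩ := mem_iUnion.1 (ih (f x) h1 h2)
        refine mem_iUnion.2 ⟨⟨n.down + 1⟩, ?_⟩
        show x ∈ L (n.down + 1)
        rw [hLs]
        exact ⟨⟨hx, hxD⟩, hn⟩
  refine (mk_le_mk_of_subset hcov).trans (mk_iUnion_le_of_le hμ ?_ _ (fun i => hLc _))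
  simpa using hμ

/-- rank cardinality of a point -/
noncomputable def rk (x : X) : Cardinal.{u} := #(Iio x)

omit [WellFoundedLT X] in
theorem rk_mono {x y : X} (h : x ≤ y) : rk x ≤ rk y :=
  mk_le_mk_of_subset (Iio_subset_Iio h)

/-- The set of points with at most `μ` predecessors. -/
def W (X : Type u) [LinearOrder X] [WellFoundedLT X] (μ : Cardinal.{u}) : Set X := {x | rk x ≤ μ}

theorem lt_card_W {μ : Cardinal.{u}} (hμ : μ < #X) : μ < #(W X μ) := by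
  by_cases h : W X μ = Set.univ
  · rw [h, mk_univ]; exact hμ
  · have hne : (W X μ)ᶜ.Nonempty := by
      rw [nonempty_compl]; exact h
    obtain ⟨m, hm, hmin⟩ := WellFounded.has_min (wellFounded_lt (α := X)) _ hne
    have hsub : Iio m ⊆ W X μ := by
      intro x hx
      by_contra hc
      exact hmin x hc hx
    have h1 : μ < rk m := not_le.1 hm
    exact h1.trans_le (mk_le_mk_of_subset hsub)

theorem mk_Iic_le {μ : Cardinal.{u}} (hμ : ℵ₀ ≤ μ) {x : X} (hx : x ∈ W X μ) :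
    #(Iic x) ≤ μ := by
  have : Iic x ⊆ insert x (Iio x) := by
    intro y hy
    rcases eq_or_lt_of_le (mem_Iic.1 hy) with h | h
    · exact Or.inl h
    · exact Or.inr h
  refine (mk_le_mk_of_subset this).trans (mk_insert_le.trans ?_)
  exact add_le_of_le hμ hx (one_le_aleph0.trans hμ)

/-- Each final segment of `W X μ` is not `μ`-small. -/
theorem not_small_tail {μ : Cardinal.{u}} (hμ : ℵ₀ ≤ μ) (hX : μ < #X) {η : X} (hη : η ∈ W X μ) :
    ¬ Small μ (W X μ ∩ Ioi η) := by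
  rintro ⟨f, hf1, hf2⟩
  have h := card_le_of_regressive hμ (W X μ) (Iic η) f ?_ (mk_Iic_le hμ hη) ?_
  · exact absurd (lt_card_W hX) (not_lt.2 h)
  · intro x hx hxη
    have h1 : f x < x := hf1 x ⟨hx, not_le.1 hxη⟩
    exact ⟨h1, (rk_mono h1.le).trans hx⟩
  · intro y
    refine (mk_le_mk_of_subset ?_).trans (hf2 y)
    rintro x ⟨⟨h1, h2⟩, h3⟩
    exact ⟨⟨h1, not_le.1 h2⟩, h3⟩

/-- Ulam matrix: a large set of indices with pairwise disjoint non-small sets. -/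
theorem exists_ulam {μ : Cardinal.{u}} (hμ : ℵ₀ ≤ μ) (hX : μ < #X)
    (hT : #{x : X | rk x < μ} ≤ μ) :
    ∃ (H : Set X) (T : X → Set X), (∀ η ∈ H, rk η = μ) ∧ μ < #H ∧
      (∀ η ∈ H, ∀ x ∈ T η, rk x = μ) ∧
      (∀ η ∈ H, ∀ η' ∈ H, ∀ x, x ∈ T η → x ∈ T η' → η = η') ∧
      (∀ η ∈ H, ¬ Small μ (T η)) := by
  classical
  -- the type of rows
  let M : Type u := μ.out
  have hM : #M = μ := mk_out μ
  have hinj : ∀ x ∈ W X μ, ∃ e : X → M, InjOn e (Iio x) := by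
    intro x hx
    have : #(Iio x) ≤ #M := by rw [hM]; exact hx
    obtain ⟨g⟩ := this
    have hne : Nonempty M := by
      rw [← mk_ne_zero_iff, hM]
      exact (aleph0_pos.trans_le hμ).ne'
    refine ⟨fun y => if h : y ∈ Iio x then g ⟨y, h⟩ else Classical.choice hne, ?_⟩
    intro y hy z hz hyz
    simp only [hy, hz, dif_pos] at hyz
    have := g.injective hyz
    exact congrArg Subtype.val this
  have hneM : Nonempty M := by
    rw [← mk_ne_zero_iff, hM]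
    exact (aleph0_pos.trans_le hμ).ne'
  have hneX : Nonempty (X → M) := ⟨fun _ => Classical.choice hneM⟩
  choose! e he using hinj
  let A : M → X → Set X := fun ξ η => {x | x ∈ W X μ ∧ η < x ∧ e x η = ξ}
  have hA : ∀ η, (⋃ ξ, A ξ η) = W X μ ∩ Ioi η := by
    intro η
    ext x
    simp only [A, mem_iUnion, mem_ofPred_eq, mem_inter_iff, mem_Ioi]
    constructor
    · rintro ⟨ξ, h1, h2, h3⟩
      exact ⟨h1, h2⟩
    · rintro ⟨h1, h2⟩
      exact ⟨e x η, h1, h2, rfl⟩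
  have hpos : ∀ η ∈ W X μ, ∃ ξ, ¬ Small μ (A ξ η) := by
    intro η hη
    by_contra hcon
    push Not at hcon
    apply not_small_tail hμ hX hη
    rw [← hA η]
    exact Small.iUnion hμ hM.le _ hcon
  -- the layer
  let Lμ : Set X := {x | rk x = μ}
  have hLW : ∀ x ∈ Lμ, x ∈ W X μ := fun x hx => le_of_eq hx
  have hLcard : μ < #Lμ := by
    by_contra hcon
    rw [not_lt] at hcon
    have hsub : W X μ ⊆ {x : X | rk x < μ} ∪ Lμ := by
      intro x hx
      rcases lt_or_eq_of_le (show rk x ≤ μ from hx) with h | h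
      · exact Or.inl h
      · exact Or.inr h
    have h1 := (mk_le_mk_of_subset hsub).trans (mk_union_le _ _)
    have h2 := h1.trans (add_le_of_le hμ hT hcon)
    exact absurd (lt_card_W hX) (not_lt.2 h2)
  have hpos' : ∀ η : Lμ, ∃ ξ, ¬ Small μ (A ξ (η : X)) := fun η => hpos η (hLW η η.2)
  choose ξ hξ using hpos'
  obtain ⟨ξ₀, hξ₀⟩ := infinite_pigeonhole_card_lt ξ (by rw [hM]; exact hLcard)
    (hμ.trans hLcard.le)
  refine ⟨Subtype.val '' (ξ ⁻¹' {ξ₀}), fun η => A ξ₀ η, ?_, ?_, ?_, ?_, ?_⟩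
  · rintro η ⟨⟨η', h1⟩, h2, rfl⟩
    exact h1
  · rw [mk_image_eq Subtype.val_injective]
    rw [hM] at hξ₀
    exact hξ₀
  · rintro η ⟨⟨η', h1⟩, h2, rfl⟩ x ⟨hx1, hx2, hx3⟩
    refine le_antisymm hx1 ?_
    have : rk η' = μ := h1
    rw [← this]
    exact rk_mono hx2.le
  · rintro η - η' - x ⟨hx1, hx2, hx3⟩ ⟨hx1', hx2', hx3'⟩
    exact he x hx1 hx2 hx2' (hx3.trans hx3'.symm)
  · rintro η ⟨⟨η', h1⟩, h2, rfl⟩
    have h3 : ξ ⟨η', h1⟩ = ξ₀ := h2
    have := hξ ⟨η', h1⟩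
    rw [h3] at this
    exact this

/-- There are `#X` many pairwise disjoint sets none of which is small in the countable sense. -/
theorem exists_disjoint_positive (hX : ℵ₀ < #X)
    (hT : ∀ μ : Cardinal.{u}, ℵ₀ ≤ μ → μ < #X → #{x : X | rk x < μ} ≤ μ) :
    ∃ (H : Set X) (T : X → Set X), #X ≤ #H ∧
      (∀ η ∈ H, ∀ η' ∈ H, ∀ x, x ∈ T η → x ∈ T η' → η = η') ∧
      (∀ η ∈ H, ¬ Small ℵ₀ (T η)) := by
  classical
  have key : ∀ μ : Cardinal.{u}, ∃ (HT : Set X × (X → Set X)), (ℵ₀ ≤ μ ∧ μ < #X) →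
      ((∀ η ∈ HT.1, rk η = μ) ∧ μ < #HT.1 ∧
      (∀ η ∈ HT.1, ∀ x ∈ HT.2 η, rk x = μ) ∧
      (∀ η ∈ HT.1, ∀ η' ∈ HT.1, ∀ x, x ∈ HT.2 η → x ∈ HT.2 η' → η = η') ∧
      (∀ η ∈ HT.1, ¬ Small μ (HT.2 η))) := by
    intro μ
    by_cases h : ℵ₀ ≤ μ ∧ μ < #X
    · obtain ⟨H, T, h1⟩ := exists_ulam h.1 h.2 (hT μ h.1 h.2)
      exact ⟨⟨H, T⟩, fun _ => h1⟩
    · exact ⟨⟨∅, fun _ => ∅⟩, fun h' => absurd h' h⟩
  choose HT hHT using key
  refine ⟨{η | ℵ₀ ≤ rk η ∧ rk η < #X ∧ η ∈ (HT (rk η)).1}, fun η => (HT (rk η)).2 η, ?_, ?_, ?_⟩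
  · -- cardinality
    by_contra hcon
    rw [not_le] at hcon
    set S : Set X := {η | ℵ₀ ≤ rk η ∧ rk η < #X ∧ η ∈ (HT (rk η)).1} with hS
    let μ := max ℵ₀ #S
    have hμ1 : ℵ₀ ≤ μ := le_max_left _ _
    have hμ2 : μ < #X := max_lt hX hcon
    obtain ⟨h1, h2, -⟩ := hHT μ ⟨hμ1, hμ2⟩
    have hsub : (HT μ).1 ⊆ S := by
      intro η hη
      have h3 := h1 η hη
      refine ⟨?_, ?_, ?_⟩
      · rw [h3]; exact hμ1
      · rw [h3]; exact hμ2
      · rw [h3]; exact hη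
    have h4 := h2.trans_le (mk_le_mk_of_subset hsub)
    exact absurd (le_max_right ℵ₀ #S) (not_le.2 h4)
  · rintro η ⟨h1, h2, h3⟩ η' ⟨h1', h2', h3'⟩ x hx hx'
    obtain ⟨-, -, a3, a4, -⟩ := hHT (rk η) ⟨h1, h2⟩
    obtain ⟨-, -, b3, b4, -⟩ := hHT (rk η') ⟨h1', h2'⟩
    have e1 := a3 η h3 x hx
    have e2 := b3 η' h3' x hx'
    have e3 : rk η = rk η' := e1.symm.trans e2
    have h3'' : η' ∈ (HT (rk η)).1 := by rw [e3]; exact h3'
    have hx'' : x ∈ (HT (rk η)).2 η' := by rw [e3]; exact hx'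
    exact a4 η h3 η' h3'' x hx hx''
  · rintro η ⟨h1, h2, h3⟩ hs
    obtain ⟨-, -, -, -, a5⟩ := hHT (rk η) ⟨h1, h2⟩
    exact a5 η h3 (hs.mono_card h1)

end Main

/-- On the canonical well-order of a cardinal the hypothesis of the previous theorem holds. -/
theorem mk_rk_lt_le (κ : Cardinal.{u}) (μ : Cardinal.{u}) (hμ : μ < κ) :
    #{x : κ.ord.ToType | rk x < μ} ≤ μ := by
  have hord : μ.ord < κ.ord := ord_lt_ord.2 hμ
  have hord' : μ.ord < Ordinal.type (α := κ.ord.ToType) (· < ·) := by simpa using hord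
  let x₀ : κ.ord.ToType := Ordinal.enum (α := κ.ord.ToType) (· < ·) ⟨μ.ord, hord'⟩
  have hx₀ : Ordinal.typein (α := κ.ord.ToType) (· < ·) x₀ = μ.ord := Ordinal.typein_enum _ _
  have hrk : ∀ x : κ.ord.ToType, rk x = (Ordinal.typein (α := κ.ord.ToType) (· < ·) x).card := by
    intro x
    rfl
  have hsub : {x : κ.ord.ToType | rk x < μ} ⊆ Iio x₀ := by
    intro x hx
    have h1 : rk x < μ := hx
    rw [hrk, ← lt_ord, ← hx₀, Ordinal.typein_lt_typein] at h1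
    exact h1
  refine (mk_le_mk_of_subset hsub).trans ?_
  have : rk x₀ = μ := by rw [hrk, hx₀, card_ord]
  exact this.le

end Pool.Agent.Lib.MP_40e9ab_lc
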